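import Mathlib
import Pool.Agent.H.MP_8e541a_co.A

namespace Pool.Agent.Results.MP_8e541a_co.Ideal

open MvPolynomial

/-- rank of the edge set `A` of the multigraph with endpoint map `ends` -/
noncomputable def rk {V E : Type} (ends : E → Sym2 V) (A : Finset E) : ℕ :=
  Nat.card V - Nat.card (SimpleGraph.fromEdgeSet (ends '' (A : Set E))).ConnectedComponent

noncomputable def tutte {V E : Type} [Fintype E] (ends : E → Sym2 V) : MvPolynomial (Fin 2) ℚ :=
  ∑ A : Finset E, (X 0 - 1) ^ (rk ends Finset.univ - rk ends A) * (X 1 - 1) ^ (A.card - rk ends A)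

/-- identify all vertices of `W` with `s` -/
def proj {V : Type} [DecidableEq V] (s : V) (W : Finset V) (v : V) : {v // v = s ∨ v ∉ W} :=
  if h : v ∈ W then ⟨s, Or.inl rfl⟩ else ⟨v, Or.inr h⟩

/-- contract `W ∪ {s}` to one vertex and delete all loops -/
def contr {V E : Type} [DecidableEq V] (ends : E → Sym2 V) (s : V) (W : Finset V)
    (e : {e // ¬ ((ends e).map (proj s W)).IsDiag}) : Sym2 {v // v = s ∨ v ∉ W} :=
  (ends e.1).map (proj s W)

open Pool.Agent.H.MP_8e541a_co SimpleGraph

section
variable {V E : Type} [DecidableEq V] (ends : E → Sym2 V) (s : V) (W : Finset V)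

theorem proj_val (v : V) : (proj s W v).1 = p s W v := by
  unfold proj p; split_ifs <;> rfl

theorem proj_id (x : {v // v = s ∨ v ∉ W}) : proj s W x.1 = x := by
  apply Subtype.ext
  rw [proj_val]
  unfold p
  split_ifs with h
  · exact (x.2.resolve_right (not_not.2 h)).symm
  · rfl

theorem diag_iff (e : E) : ((ends e).map (proj s W)).IsDiag ↔ Lp ends s W e := by
  obtain ⟨⟨u, v⟩, h'⟩ := Quot.exists_rep (ends e)
  have h'' : ends e = s(u, v) := h'.symm
  unfold Lp
  rw [h'', Sym2.map_mk, Sym2.map_mk, Sym2.mk_isDiag_iff, Sym2.mk_isDiag_iff, Subtype.ext_iff,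
    proj_val, proj_val]

theorem transfer (A : Finset {e // ¬ ((ends e).map (proj s W)).IsDiag}) :
    cc (fromEdgeSet (contr ends s W '' (A : Set _))) =
      cc (HG ends s (A.map (Function.Embedding.subtype _)) W) := by
  set G' := fromEdgeSet (contr ends s W '' (A : Set _))
  set K := HG ends s (A.map (Function.Embedding.subtype _)) W
  have h1 : ∀ x y, G'.Adj x y → K.Reachable x.1 y.1 := by
    intro x y h
    obtain ⟨⟨e, he, hxy⟩, -⟩ := (fromEdgeSet_adj _).1 h
    obtain ⟨⟨u, v⟩, h'⟩ := Quot.exists_rep (ends e.1)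
    have h'' : ends e.1 = s(u, v) := h'.symm
    have huv : K.Reachable u v := by
      by_cases e' : u = v
      · rw [e']
      · exact Adj.reachable ((fromEdgeSet_adj _).2
          ⟨Or.inl ⟨e.1, Finset.mem_map.2 ⟨e, he, rfl⟩, h''⟩, e'⟩)
    have hp : K.Reachable (proj s W u).1 (proj s W v).1 := by
      rw [proj_val, proj_val]
      exact (reach_p ends s _ W u).trans (huv.trans (reach_p ends s _ W v).symm)
    unfold contr at hxy
    rw [h'', Sym2.map_mk, Sym2.eq_iff] at hxy
    rcases hxy with ⟨rfl, rfl⟩ | ⟨rfl, rfl⟩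
    · exact hp
    · exact hp.symm
  have h2 : ∀ u v, K.Adj u v → G'.Reachable (proj s W u) (proj s W v) := by
    intro u v h
    by_cases e' : proj s W u = proj s W v
    · rw [e']
    rcases ((fromEdgeSet_adj _).1 h).1 with ⟨e, he, h'⟩ | ⟨w, hw, h'⟩
    · obtain ⟨e, he2, rfl⟩ := Finset.mem_map.1 he
      refine Adj.reachable ((fromEdgeSet_adj _).2 ⟨⟨e, he2, ?_⟩, e'⟩)
      have h'' : ends e.1 = s(u, v) := h'
      unfold contr
      rw [h'', Sym2.map_mk]
    · exfalso
      have hw' : w ∈ W := hw
      have : proj s W s = proj s W w := Subtype.ext (by rw [proj_val, proj_val]; simp [p, hw'])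
      rcases Sym2.eq_iff.1 h' with ⟨rfl, rfl⟩ | ⟨rfl, rfl⟩
      · exact e' this
      · exact e' this.symm
  have r1 : ∀ x y, G'.Reachable x y → K.Reachable x.1 y.1 := by
    intro x y h
    rw [reachable_iff_reflTransGen] at h
    induction h with
    | refl => rfl
    | tail _ h ih => exact ih.trans (h1 _ _ h)
  have r2 : ∀ u v, K.Reachable u v → G'.Reachable (proj s W u) (proj s W v) := by
    intro x y h
    rw [reachable_iff_reflTransGen] at h
    induction h with
    | refl => rfl
    | tail _ h ih => exact ih.trans (h2 _ _ h)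
  refine Nat.card_congr ⟨Quot.map (fun x => x.1) r1, Quot.map (proj s W) r2, ?_, ?_⟩
  · rintro ⟨x⟩
    exact congrArg (Quot.mk _) (proj_id s W x)
  · rintro ⟨x⟩
    refine Quot.sound ?_
    show K.Reachable (proj s W x).1 x
    rw [proj_val]
    exact reach_p ends s _ W x

open Classical in
theorem contr_eq [Fintype V] [Fintype E] (hs : s ∉ W)
    (hG : (fromEdgeSet (Set.range ends)).Connected) :
    tutte (contr ends s W) =
      F ends s (X 0 - 1) (X 1 - 1) W (Finset.univ.filter fun e => ¬ Lp ends s W e) := by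
  have hcard : Nat.card {v // v = s ∨ v ∉ W} = Fintype.card V - W.card := by
    rw [← Finset.card_compl, ← Fintype.card_coe, ← Nat.card_eq_fintype_card]
    exact Nat.card_congr (Equiv.subtypeEquivRight fun v => by
      rw [Finset.mem_compl]
      exact ⟨fun h => h.elim (fun e => e ▸ hs) id, Or.inr⟩)
  have hW := Finset.card_le_univ W
  have hle : ∀ A : Finset {e // ¬ ((ends e).map (proj s W)).IsDiag},
      cc (HG ends s (A.map (Function.Embedding.subtype _)) W) ≤ Fintype.card V - W.card := by
    intro A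
    rw [← transfer, ← hcard, Nat.card_eq_fintype_card]
    exact cc_card _
  have hrk : ∀ A : Finset {e // ¬ ((ends e).map (proj s W)).IsDiag}, rk (contr ends s W) A =
      Fintype.card V - W.card - cc (HG ends s (A.map (Function.Embedding.subtype _)) W) := by
    intro A
    rw [← transfer, ← hcard]; rfl
  have h1 : cc (HG ends s ((Finset.univ : Finset {e // ¬ ((ends e).map (proj s W)).IsDiag}).map
      (Function.Embedding.subtype _)) W) ≤ 1 := by
    refine Finite.card_le_one_iff_subsingleton.2 (Preconnected.subsingleton_connectedComponent ?_)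
    intro x y
    have h := hG.preconnected x y
    rw [reachable_iff_reflTransGen] at h
    induction h with
    | refl => rfl
    | @tail u v _ h ih =>
      refine ih.trans ?_
      obtain ⟨⟨e, he⟩, hne⟩ := (fromEdgeSet_adj _).1 h
      by_cases hl : Lp ends s W e
      · unfold Lp at hl
        rw [he, Sym2.map_mk, Sym2.mk_isDiag_iff] at hl
        exact (reach_p ends s _ W u).symm.trans (hl ▸ reach_p ends s _ W v)
      · exact Adj.reachable ((fromEdgeSet_adj _).2 ⟨Or.inl ⟨e, Finset.mem_map.2
          ⟨⟨e, by rwa [diag_iff]⟩, Finset.mem_univ _, rfl⟩, he⟩, hne⟩)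
  have h1' := cc_pos (HG ends s ((Finset.univ : Finset {e // ¬ ((ends e).map (proj s W)).IsDiag}).map
      (Function.Embedding.subtype _)) W) s
  unfold tutte F
  refine Finset.sum_nbij' (fun A => A.map (Function.Embedding.subtype _)) (fun A => A.subtype _)
    (fun A _ => ?_) (fun _ _ => Finset.mem_univ _) (fun A _ => ?_) (fun A hA => ?_) (fun A _ => ?_)
  · refine Finset.mem_powerset.2 fun x hx => ?_
    obtain ⟨e, -, rfl⟩ := Finset.mem_map.1 hx
    simpa [diag_iff] using (diag_iff ends s W e.1).not.1 e.2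
  · ext x; simpa using fun _ => x.2
  · refine Finset.subtype_map_of_mem fun x hx => ?_
    have := Finset.mem_powerset.1 hA hx
    rw [diag_iff]
    simpa using this
  · have := hle A
    have := cc_pos (HG ends s (A.map (Function.Embedding.subtype _)) W) s
    rw [hrk, hrk, Finset.card_map]
    congr 2 <;> omega

omit [DecidableEq V] in
theorem tutte_eq [Fintype V] [Fintype E] [DecidableEq E]
    (hG : (fromEdgeSet (Set.range ends)).Connected) :
    tutte ends = F ends s (X 0 - 1) (X 1 - 1) ∅ Finset.univ := by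
  have hrk : ∀ A : Finset E, rk ends A = Fintype.card V - cc (HG ends s A ∅) := by
    intro A
    simp [rk, HG, cc]
  have h1 : cc (HG ends s Finset.univ ∅) ≤ 1 := by
    refine Finite.card_le_one_iff_subsingleton.2 (Preconnected.subsingleton_connectedComponent ?_)
    simpa [HG] using hG.preconnected
  have h1' := cc_pos (HG ends s Finset.univ ∅) s
  unfold tutte F
  rw [Finset.powerset_univ]
  refine Finset.sum_congr rfl fun A _ => ?_
  have := cc_card (HG ends s A ∅)
  have := cc_pos (HG ends s A ∅) s
  rw [hrk, hrk, Finset.card_empty]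
  congr 2 <;> omega

end

open Classical in
theorem result (V E : Type) [Fintype V] [Fintype E] [Nontrivial V] (ends : E → Sym2 V)
    (hG : (SimpleGraph.fromEdgeSet (Set.range ends)).Connected) (s : V) :
    tutte ends ∈ Ideal.span {T | ∃ W : Finset V, W.Nonempty ∧
      (∀ t ∈ W, t ≠ s ∧ ∃ e, ends e = s(s, t)) ∧ T = tutte (contr ends s W)} := by
  obtain ⟨t, ht, ht'⟩ : ∃ t, t ≠ s ∧ ∃ e, ends e = s(s, t) := by
    obtain ⟨x, hx⟩ := exists_ne s
    obtain ⟨w⟩ := hG.preconnected s x
    cases w with
    | nil => exact absurd rfl hx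
    | cons h _ => exact ⟨_, h.ne', ((fromEdgeSet_adj _).1 h).1⟩
  rw [tutte_eq ends s hG]
  refine main ends s _ _ _ (fun W h1 h2 => Ideal.subset_span ⟨W, h1, h2, ?_⟩) t ht ht'
  exact (contr_eq ends s W (fun h => (h2 s h).1 rfl) hG).symm

end Pool.Agent.Results.MP_8e541a_co.Ideal
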